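import Mathlib

/-!
# `S_n(m, 1)` is log-concave
-/

namespace Pool.Agent.Results.MP_523fe6_co.LogConcave

open Polynomial Finset

/-- The multiset coefficient `((m, a)) = (1/a!) ∏_{s < a} (m + s)`, as a polynomial in `m = X`. -/
noncomputable def mc (a : ℕ) : ℚ[X] :=
  C (1 / (a.factorial : ℚ)) * ∏ s ∈ range a, (X + C (s : ℚ))

/-- `S_n(m, 1) = ∑_{i < r} (r - i) ((m, i)) ((m, n - i))` with `n = 2 r + 1`. -/
noncomputable def S (r : ℕ) : ℚ[X] :=
  ∑ i ∈ range r, C ((r : ℚ) - i) * mc i * mc (2 * r + 1 - i)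

theorem mc_zero : mc 0 = 1 := by simp [mc]

theorem mc_succ (a : ℕ) : C ((a : ℚ) + 1) * mc (a + 1) = (X + C (a : ℚ)) * mc a := by
  have h : (C ((a : ℚ) + 1) : ℚ[X]) * C (1 / ((a + 1).factorial : ℚ)) = C (1 / (a.factorial : ℚ)) := by
    rw [← C_mul]
    congr 1
    rw [Nat.factorial_succ]
    have : (a.factorial : ℚ) ≠ 0 := by positivity
    push_cast
    field_simp
  rw [mc, mc, prod_range_succ, ← h]
  ring

/-- partial sums of `(n - 2 i) a_i` -/
theorem partial_sum (n k : ℕ) (hk : k ≤ n) :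
    X * ∑ i ∈ range (k + 1), C ((n : ℚ) - 2 * i) * (mc i * mc (n - i)) =
      (X + C (k : ℚ)) * C ((n : ℚ) - k) * (mc k * mc (n - k)) := by
  induction k with
  | zero => simp [mul_assoc]
  | succ k ih =>
    rw [sum_range_succ, mul_add, ih (by omega)]
    obtain ⟨l, rfl⟩ : ∃ l, n = l + (k + 1) := ⟨n - (k + 1), by omega⟩
    have e1 : l + (k + 1) - k = l + 1 := by omega
    have e2 : l + (k + 1) - (k + 1) = l := by omega
    rw [e1, e2]
    have h1 := mc_succ k
    have h2 := mc_succ l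
    have c1 : (C (((l + (k + 1) : ℕ) : ℚ) - k) : ℚ[X]) = C ((l : ℚ) + 1) := by
      congr 1; push_cast; ring
    have c2 : (C (((l + (k + 1) : ℕ) : ℚ) - 2 * ((k + 1 : ℕ) : ℚ)) : ℚ[X]) = C (l : ℚ) - C (k : ℚ) - 1 := by
      rw [← C_sub, ← C_1, ← C_sub]; congr 1; push_cast; ring
    have c3 : (C (((l + (k + 1) : ℕ) : ℚ) - ((k + 1 : ℕ) : ℚ)) : ℚ[X]) = C (l : ℚ) := by
      congr 1; push_cast; ring
    have c4 : (C (((k + 1 : ℕ) : ℚ)) : ℚ[X]) = C (k : ℚ) + 1 := by
      rw [← C_1, ← C_add]; congr 1; push_cast; ring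
    rw [c1, c2, c3, c4]
    have c5 : (C ((l : ℚ) + 1) : ℚ[X]) = C (l : ℚ) + 1 := by rw [C_add, C_1]
    have c6 : (C ((k : ℚ) + 1) : ℚ[X]) = C (k : ℚ) + 1 := by rw [C_add, C_1]
    rw [c5] at h2 ⊢
    rw [c6] at h1
    linear_combination (-(mc l * (X + C (l : ℚ)))) * h1 + ((X + C (k : ℚ)) * mc k) * h2

theorem vandermonde (n : ℕ) :
    ∑ p ∈ antidiagonal n, mc p.1 * mc p.2 =
      C (1 / (n.factorial : ℚ)) * ∏ s ∈ range n, (2 * X + C (s : ℚ)) := by
  induction n with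
  | zero => simp [mc_zero]
  | succ n ih =>
    have hn : (C ((n : ℚ) + 1) : ℚ[X]) ≠ 0 := by
      rw [Ne, C_eq_zero]; positivity
    apply mul_left_cancel₀ hn
    have e1 : C ((n : ℚ) + 1) * ∑ p ∈ antidiagonal (n + 1), mc p.1 * mc p.2 =
        ∑ p ∈ antidiagonal (n + 1), (C (p.1 : ℚ) * mc p.1) * mc p.2 +
        ∑ p ∈ antidiagonal (n + 1), mc p.1 * (C (p.2 : ℚ) * mc p.2) := by
      rw [mul_sum, ← sum_add_distrib]
      refine sum_congr rfl fun p hp => ?_
      rw [HasAntidiagonal.mem_antidiagonal] at hp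
      have : (n : ℚ) + 1 = p.1 + p.2 := by exact_mod_cast hp.symm
      rw [this, C_add]
      ring
    rw [e1, Nat.sum_antidiagonal_succ, Nat.sum_antidiagonal_succ']
    simp only [Nat.cast_zero, C_0, zero_mul, mul_zero, zero_add, Nat.cast_add, Nat.cast_one, mc_succ]
    rw [← sum_add_distrib]
    have e2 : ∑ p ∈ antidiagonal n, ((X + C (p.1 : ℚ)) * mc p.1 * mc p.2 +
        mc p.1 * ((X + C (p.2 : ℚ)) * mc p.2)) =
        (2 * X + C (n : ℚ)) * ∑ p ∈ antidiagonal n, mc p.1 * mc p.2 := by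
      rw [mul_sum]
      refine sum_congr rfl fun p hp => ?_
      rw [HasAntidiagonal.mem_antidiagonal] at hp
      have : (n : ℚ) = p.1 + p.2 := by exact_mod_cast hp.symm
      rw [this, C_add]
      ring
    rw [e2, ih, prod_range_succ]
    have h : (C ((n : ℚ) + 1) : ℚ[X]) * C (1 / ((n + 1).factorial : ℚ)) = C (1 / (n.factorial : ℚ)) := by
      rw [← C_mul]
      congr 1
      rw [Nat.factorial_succ]
      have : (n.factorial : ℚ) ≠ 0 := by positivity
      push_cast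
      field_simp
    rw [← h]
    ring

theorem half_sum (r : ℕ) :
    2 * ∑ i ∈ range (r + 1), (mc i * mc (2 * r + 1 - i)) =
      C (1 / ((2 * r + 1).factorial : ℚ)) * ∏ s ∈ range (2 * r + 1), (2 * X + C (s : ℚ)) := by
  rw [← vandermonde, Nat.sum_antidiagonal_eq_sum_range_succ (fun i j => mc i * mc j)]
  rw [show (2 * r + 1).succ = (r + 1) + (r + 1) by omega,
    sum_range_add (fun i => mc i * mc (2 * r + 1 - i)) (r + 1) (r + 1), two_mul]
  congr 1
  rw [← sum_range_reflect (fun i => mc i * mc (2 * r + 1 - i)) (r + 1)]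
  refine sum_congr rfl fun i hi => ?_
  rw [mem_range] at hi
  have e1 : 2 * r + 1 - (r + 1 - 1 - i) = r + 1 + i := by omega
  have e2 : r + 1 - 1 - i = 2 * r + 1 - (r + 1 + i) := by omega
  rw [e1, e2, mul_comm]

/-- splitting the product `2X (2X+1) ⋯ (2X+2r)` -/
theorem prod_split (r : ℕ) :
    ∏ s ∈ range (2 * r + 1), ((2 : ℚ[X]) * X + C (s : ℚ)) =
      C (2 * 4 ^ r : ℚ) * (∏ s ∈ range (r + 1), (X + C (s : ℚ))) * ∏ s ∈ range r, (X + C ((s : ℚ) + 1 / 2)) := by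
  induction r with
  | zero => simp; rfl
  | succ r ih =>
    rw [show 2 * (r + 1) + 1 = (2 * r + 1) + 1 + 1 by ring, prod_range_succ, prod_range_succ, ih,
      prod_range_succ (fun s : ℕ => (X + C (s : ℚ))) (r + 1),
      prod_range_succ (fun s : ℕ => (X + C ((s : ℚ) + 1 / 2))) r]
    have e1 : (2 : ℚ[X]) * X + C (((2 * r + 1 : ℕ) : ℚ)) = C 2 * (X + C ((r : ℚ) + 1 / 2)) := by
      rw [mul_add, ← C_mul]
      congr 2
      push_cast; ring_nf
    have e2 : (2 : ℚ[X]) * X + C (((2 * r + 1 + 1 : ℕ) : ℚ)) = C 2 * (X + C (((r + 1 : ℕ) : ℚ))) := by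
      rw [mul_add, ← C_mul]
      congr 2
      push_cast; ring
    have e3 : (C (2 * 4 ^ (r + 1) : ℚ) : ℚ[X]) = C (2 * 4 ^ r : ℚ) * C 2 * C 2 := by
      rw [← C_mul, ← C_mul]; congr 1; ring
    rw [e1, e2, e3]
    ring

theorem prod_shift (r : ℕ) : ∏ s ∈ range (r + 1), (X + C (s : ℚ)) =
    X * ∏ s ∈ range r, (X + C ((s : ℚ) + 1)) := by
  rw [prod_range_succ']
  simp [mul_comm]

/-- The closed form of `4 S_n(m, 1)`. -/
theorem closed (r : ℕ) : 4 * S r = 2 * (∏ s ∈ range (r + 1), (X + C (s : ℚ))) *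
    (C (1 / (r.factorial : ℚ) ^ 2) * ∏ s ∈ range r, (X + C ((s : ℚ) + 1)) -
      C (4 ^ r / ((2 * r + 1).factorial : ℚ)) * ∏ s ∈ range r, (X + C ((s : ℚ) + 1 / 2))) := by
  have h1 := partial_sum (2 * r + 1) r (by omega)
  have h2 := half_sum r
  rw [prod_split] at h2
  have h3 : 2 * S r = ∑ i ∈ range (r + 1), C (((2 * r + 1 : ℕ) : ℚ) - 2 * i) * (mc i * mc (2 * r + 1 - i)) -
      ∑ i ∈ range (r + 1), (mc i * mc (2 * r + 1 - i)) := by
    rw [← sum_sub_distrib, sum_range_succ, S, mul_sum]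
    have : C (((2 * r + 1 : ℕ) : ℚ) - 2 * r) * (mc r * mc (2 * r + 1 - r)) - mc r * mc (2 * r + 1 - r) = 0 := by
      have : (((2 * r + 1 : ℕ) : ℚ) - 2 * r) = 1 := by push_cast; ring
      rw [this, C_1]; ring
    rw [this, add_zero]
    refine sum_congr rfl fun i _ => ?_
    have : (C (((2 * r + 1 : ℕ) : ℚ) - 2 * i) : ℚ[X]) = 2 * C ((r : ℚ) - i) + 1 := by
      rw [← C_1, show (2 : ℚ[X]) = C 2 from rfl, ← C_mul, ← C_add]
      congr 1; push_cast; ring
    rw [this]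
    ring
  apply mul_left_cancel₀ (X_ne_zero (R := ℚ))
  have h4 : (X + C (r : ℚ)) * C (((2 * r + 1 : ℕ) : ℚ) - r) * (mc r * mc (2 * r + 1 - r)) =
      C (1 / (r.factorial : ℚ) ^ 2) * (∏ s ∈ range (r + 1), (X + C (s : ℚ))) * (X *
        ∏ s ∈ range r, (X + C ((s : ℚ) + 1))) := by
    rw [← prod_shift, show 2 * r + 1 - r = r + 1 by omega]
    have e1 : (C (((2 * r + 1 : ℕ) : ℚ) - r) : ℚ[X]) = C ((r : ℚ) + 1) := by
      congr 1; push_cast; ring
    rw [e1]
    have e2 : (C ((r : ℚ) + 1) : ℚ[X]) * C (1 / ((r + 1).factorial : ℚ)) = C (1 / (r.factorial : ℚ)) := by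
      rw [← C_mul]
      congr 1
      rw [Nat.factorial_succ]
      have : (r.factorial : ℚ) ≠ 0 := by positivity
      push_cast
      field_simp
    have e3 : (C (1 / (r.factorial : ℚ) ^ 2) : ℚ[X]) = C (1 / (r.factorial : ℚ)) * C (1 / (r.factorial : ℚ)) := by
      rw [← C_mul]; congr 1; ring
    rw [mc, mc, e3, prod_range_succ]
    linear_combination ((X + C (r : ℚ)) * C (1 / (r.factorial : ℚ)) * (∏ s ∈ range r, (X + C (s : ℚ))) *
      ((∏ s ∈ range r, (X + C (s : ℚ))) * (X + C (r : ℚ)))) * e2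
  have e5 : (C (4 ^ r / ((2 * r + 1).factorial : ℚ)) : ℚ[X]) * 2 =
      C (1 / ((2 * r + 1).factorial : ℚ)) * C (2 * 4 ^ r : ℚ) := by
    rw [show (2 : ℚ[X]) = C 2 from rfl, ← C_mul, ← C_mul]
    congr 1
    ring
  rw [h4] at h1
  linear_combination 2 * X * h3 + 2 * h1 - X * h2 + X * (∏ s ∈ range (r + 1), (X + C (s : ℚ))) *
    (∏ s ∈ range r, (X + C ((s : ℚ) + 1 / 2))) * e5

/-! ### strongly log-concave polynomials -/

/-- nonnegative coefficients with `a_i a_{j+2} ≤ a_{i+1} a_{j+1}` for `i ≤ j` -/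
def SLC (p : ℝ[X]) : Prop :=
  (∀ i, 0 ≤ p.coeff i) ∧ ∀ i j, i ≤ j → p.coeff i * p.coeff (j + 2) ≤ p.coeff (i + 1) * p.coeff (j + 1)

theorem SLC.mul {p : ℝ[X]} (hp : SLC p) {ρ : ℝ} (hρ : 0 ≤ ρ) : SLC (p * (X + C ρ)) := by
  obtain ⟨h0, h1⟩ := hp
  have c0 : (p * (X + C ρ)).coeff 0 = ρ * p.coeff 0 := by
    simp [mul_add, mul_coeff_zero, mul_comm]
  have cs : ∀ n, (p * (X + C ρ)).coeff (n + 1) = p.coeff n + ρ * p.coeff (n + 1) := by
    intro n
    rw [mul_add, coeff_add, coeff_mul_X, coeff_mul_C, mul_comm ρ]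
  refine ⟨?_, ?_⟩
  · intro i
    cases i with
    | zero => rw [c0]; exact mul_nonneg hρ (h0 0)
    | succ n => rw [cs]; exact add_nonneg (h0 n) (mul_nonneg hρ (h0 _))
  · intro i j hij
    cases i with
    | zero =>
      rw [c0, cs (j + 1), cs 0, cs j]
      have := h1 0 j (Nat.zero_le _)
      have a := h0 0
      have b := h0 j
      have c := h0 1
      have d := h0 (j + 1)
      nlinarith [mul_nonneg a b, mul_nonneg (mul_nonneg hρ c) b, mul_le_mul_of_nonneg_left this (mul_nonneg hρ hρ)]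
    | succ i =>
      obtain ⟨j, rfl⟩ : ∃ j', j = j' + 1 := ⟨j - 1, by omega⟩
      have hij' : i ≤ j := by omega
      rw [cs i, cs (j + 2), cs (i + 1), cs (j + 1)]
      -- a_{i+1} a_{j+1} ≥ a_i a_{j+2}, and a_{i+2} a_{j+2} ≥ a_{i+1} a_{j+3}
      have q1 := h1 i j hij'
      have q2 := h1 (i + 1) (j + 1) (by omega)
      have q3 : p.coeff i * p.coeff (j + 3) ≤ p.coeff (i + 2) * p.coeff (j + 1) := by
        rcases Nat.eq_or_lt_of_le hij' with h | h
        · subst h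
          have := h1 i (i + 1) (by omega)
          linarith [this, mul_comm (p.coeff (i + 1)) (p.coeff (i + 2))]
        · obtain ⟨j, rfl⟩ : ∃ j', j = j' + 1 := ⟨j - 1, by omega⟩
          have r1 := h1 i (j + 2) (by omega)
          have r2 := h1 (i + 1) (j + 1) (by omega)
          exact le_trans r1 (le_trans (le_refl _) (le_trans r2 (le_refl _)))
      have s1 := mul_le_mul_of_nonneg_left q3 hρ
      have s2 := mul_le_mul_of_nonneg_left q2 (mul_nonneg hρ hρ)
      linarith [s1, s2, q1]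

theorem SLC.one : SLC 1 := by
  refine ⟨fun i => ?_, fun i j _ => ?_⟩
  · rw [coeff_one]; split_ifs <;> norm_num
  · rw [coeff_one, coeff_one, coeff_one, coeff_one]
    simp

theorem SLC.C_mul {p : ℝ[X]} (hp : SLC p) {c : ℝ} (hc : 0 ≤ c) : SLC (C c * p) := by
  refine ⟨fun i => ?_, fun i j hij => ?_⟩
  · rw [coeff_C_mul]; exact mul_nonneg hc (hp.1 i)
  · simp only [coeff_C_mul]
    have := mul_le_mul_of_nonneg_left (hp.2 i j hij) (mul_nonneg hc hc)
    linarith

theorem SLC.prod {p : ℝ[X]} (hp : SLC p) (n : ℕ) (y : ℕ → ℝ) (hy : ∀ i < n, 0 ≤ y i) :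
    SLC (p * ∏ i ∈ range n, (X + C (y i))) := by
  induction n with
  | zero => simpa using hp
  | succ n ih =>
    rw [prod_range_succ, ← mul_assoc]
    exact (ih fun i hi => hy i (by omega)).mul (hy n (by omega))

/-! ### the second factor is real-rooted -/

theorem mon (f : ℕ → ℝ) (r : ℕ) : (∏ s ∈ range r, (X + C (f s))).Monic ∧
    (∏ s ∈ range r, (X + C (f s))).natDegree = r := by
  refine ⟨monic_prod_of_monic _ _ fun i _ => monic_X_add_C _, ?_⟩
  rw [natDegree_prod_of_monic _ _ fun i _ => monic_X_add_C _]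
  simp

theorem mon_coeff (f : ℕ → ℝ) (r m : ℕ) (hm : r ≤ m) :
    (∏ s ∈ range r, (X + C (f s))).coeff m = if m = r then 1 else 0 := by
  obtain ⟨h1, h2⟩ := mon f r
  split_ifs with h
  · subst h
    have := h1.coeff_natDegree
    rwa [h2] at this
  · exact coeff_eq_zero_of_natDegree_lt (by omega)

/-- the polynomial `A (X+1)⋯(X+r) - B (X+1/2)⋯(X+r-1/2)` -/
noncomputable def PP (A B : ℝ) (r : ℕ) : ℝ[X] :=
  C A * ∏ s ∈ range r, (X + C ((s : ℝ) + 1)) - C B * ∏ s ∈ range r, (X + C ((s : ℝ) + 1 / 2))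

theorem sgn (r j : ℕ) (hj : j ≤ r) : 0 < (-1 : ℝ) ^ j * ∏ s ∈ range r, (-(j : ℝ) + (s + 1 / 2)) := by
  obtain ⟨k, rfl⟩ := Nat.exists_eq_add_of_le hj
  rw [prod_range_add, ← mul_assoc]
  apply mul_pos
  · have : (-1 : ℝ) ^ j = ∏ s ∈ range j, (-1 : ℝ) := by simp
    rw [this, ← prod_mul_distrib]
    apply prod_pos
    intro s hs
    rw [mem_range] at hs
    have : (s : ℝ) + 1 ≤ j := by exact_mod_cast hs
    linarith
  · apply prod_pos
    intro s _
    push_cast
    have : (0 : ℝ) ≤ s := Nat.cast_nonneg s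
    linarith

theorem PP_eval (A B : ℝ) (r : ℕ) (x : ℝ) : (PP A B r).eval x =
    A * ∏ s ∈ range r, (x + ((s : ℝ) + 1)) - B * ∏ s ∈ range r, (x + ((s : ℝ) + 1 / 2)) := by
  simp [PP, eval_prod]

theorem PP_neg (A B : ℝ) (hB : 0 < B) (r j : ℕ) (hj : 1 ≤ j) (hjr : j ≤ r) :
    (-1 : ℝ) ^ j * (PP A B r).eval (-(j : ℝ)) < 0 := by
  rw [PP_eval]
  have h : ∏ s ∈ range r, (-(j : ℝ) + ((s : ℝ) + 1)) = 0 := by
    apply prod_eq_zero (i := j - 1) (mem_range.2 (by omega))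
    rw [Nat.cast_sub hj]
    push_cast; ring
  rw [h]
  have := mul_pos hB (sgn r j hjr)
  linarith

theorem PP_pos (A B : ℝ) (hA : 0 < A) (r j : ℕ) (hjr : j < r) :
    0 < (-1 : ℝ) ^ j * (PP A B r).eval (-(j : ℝ) - 1 / 2) := by
  rw [PP_eval]
  have h : ∏ s ∈ range r, (-(j : ℝ) - 1 / 2 + ((s : ℝ) + 1 / 2)) = 0 := by
    apply prod_eq_zero (i := j) (mem_range.2 (by omega))
    ring
  have h' : ∏ s ∈ range r, (-(j : ℝ) - 1 / 2 + ((s : ℝ) + 1)) = ∏ s ∈ range r, (-(j : ℝ) + (s + 1 / 2)) := by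
    refine prod_congr rfl fun s _ => ?_
    ring
  rw [h, h']
  have := mul_pos hA (sgn r j hjr.le)
  linarith

theorem exists_far (A B : ℝ) (hAB : B < A) (r : ℕ) (hr : 1 ≤ r) :
    ∃ x : ℝ, x < -(r : ℝ) ∧ 0 < (-1 : ℝ) ^ r * (PP A B r).eval x := by
  let Q : ℝ[X] := C A * ∏ s ∈ range r, (X + C (-((s : ℝ) + 1))) - C B * ∏ s ∈ range r, (X + C (-((s : ℝ) + 1 / 2)))
  have hc : ∀ m, r ≤ m → Q.coeff m = if m = r then A - B else 0 := by
    intro m hm
    simp only [Q, coeff_sub, coeff_C_mul]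
    rw [mon_coeff (fun s : ℕ => -((s : ℝ) + 1)) r m hm, mon_coeff (fun s : ℕ => -((s : ℝ) + 1 / 2)) r m hm]
    split_ifs <;> ring
  have hd : Q.natDegree = r := by
    apply natDegree_eq_of_le_of_coeff_ne_zero
    · rw [natDegree_le_iff_coeff_eq_zero]
      intro m hm
      rw [hc m hm.le, if_neg (by omega)]
    · rw [hc r le_rfl, if_pos rfl]
      linarith
  have hl : Q.leadingCoeff = A - B := by
    rw [leadingCoeff, hd, hc r le_rfl, if_pos rfl]
  have ht := Q.tendsto_atTop_of_leadingCoeff_nonneg (by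
    rw [← natDegree_pos_iff_degree_pos, hd]; omega) (by rw [hl]; linarith)
  have h1 := (ht.eventually_gt_atTop 0).and (Filter.eventually_gt_atTop (r : ℝ))
  obtain ⟨x, hx1, hx2⟩ := h1.exists
  refine ⟨-x, by linarith, ?_⟩
  have : (-1 : ℝ) ^ r * (PP A B r).eval (-x) = Q.eval x := by
    rw [PP_eval]
    simp only [Q, eval_sub, eval_mul, eval_C, eval_prod, eval_add, eval_X]
    have e : (-1 : ℝ) ^ r = ∏ s ∈ range r, (-1 : ℝ) := by simp
    have e1 : (-1 : ℝ) ^ r * ∏ s ∈ range r, (-x + ((s : ℝ) + 1)) = ∏ s ∈ range r, (x + -((s : ℝ) + 1)) := by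
      rw [e, ← prod_mul_distrib]
      refine prod_congr rfl fun s _ => ?_
      ring
    have e2 : (-1 : ℝ) ^ r * ∏ s ∈ range r, (-x + ((s : ℝ) + 1 / 2)) =
        ∏ s ∈ range r, (x + -((s : ℝ) + 1 / 2)) := by
      rw [e, ← prod_mul_distrib]
      refine prod_congr rfl fun s _ => ?_
      ring
    rw [← e1, ← e2]
    ring
  rw [this]
  exact hx1

theorem exists_root (A B : ℝ) (hB : 0 < B) (hAB : B < A) (r : ℕ) (hr : 1 ≤ r) (j : ℕ) (hj : 1 ≤ j)
    (hjr : j ≤ r) : ∃ y : ℝ, (j : ℝ) < y ∧ (j < r → y < j + 1) ∧ (PP A B r).eval (-y) = 0 := by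
  obtain ⟨x, hx1, hx2, hx3⟩ : ∃ x : ℝ, x < -(j : ℝ) ∧ (j < r → -(j : ℝ) - 1 < x) ∧
      0 < (-1 : ℝ) ^ j * (PP A B r).eval x := by
    rcases Nat.lt_or_ge j r with h | h
    · exact ⟨-(j : ℝ) - 1 / 2, by linarith, fun _ => by linarith, PP_pos A B (by linarith) r j h⟩
    · obtain rfl : j = r := by omega
      obtain ⟨x, h1, h2⟩ := exists_far A B hAB j hj
      exact ⟨x, h1, fun h => absurd h (lt_irrefl _), h2⟩
  have hc : ContinuousOn (fun z : ℝ => (-1 : ℝ) ^ j * (PP A B r).eval z) (Set.Icc x (-(j : ℝ))) :=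
    (continuous_const.mul (PP A B r).continuous).continuousOn
  have h := intermediate_value_Ioo' hx1.le hc
  obtain ⟨z, hz1, hz2⟩ := h ⟨PP_neg A B hB r j hj hjr, hx3⟩
  refine ⟨-z, ?_, ?_, ?_⟩
  · have := hz1.2; linarith
  · intro hh
    have := hz1.1
    have := hx2 hh
    linarith
  · rw [neg_neg]
    have h0 : (-1 : ℝ) ^ j ≠ 0 := by simp
    exact (mul_eq_zero.1 hz2).resolve_left h0

theorem PP_factor (A B : ℝ) (hB : 0 < B) (hAB : B < A) (r : ℕ) (hr : 1 ≤ r) :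
    ∃ y : ℕ → ℝ, (∀ j < r, 0 < y j) ∧ PP A B r = C (A - B) * ∏ j ∈ range r, (X + C (y j)) := by
  have H : ∀ j : ℕ, ∃ y : ℝ, j < r → ((j : ℝ) + 1 < y ∧ (j + 1 < r → y < j + 2) ∧ (PP A B r).eval (-y) = 0) := by
    intro j
    by_cases h : j < r
    · obtain ⟨y, h1, h2, h3⟩ := exists_root A B hB hAB r hr (j + 1) (by omega) (by omega)
      refine ⟨y, fun _ => ⟨by exact_mod_cast h1, fun hh => ?_, h3⟩⟩
      have := h2 hh
      push_cast at this
      linarith
    · exact ⟨0, fun hh => absurd hh h⟩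
  choose y hy using H
  have hpos : ∀ j < r, 0 < y j := by
    intro j hj
    have := (hy j hj).1
    have h0 : (0 : ℝ) ≤ j := Nat.cast_nonneg j
    linarith
  have hlt : ∀ i j, i < j → j < r → y i < y j := by
    intro i j hij hj
    have h1 := (hy i (by omega)).2.1 (by omega)
    have h2 := (hy j hj).1
    have : (i : ℝ) + 1 ≤ j := by exact_mod_cast hij
    linarith
  refine ⟨y, hpos, ?_⟩
  have hinj : Set.InjOn (fun j => -y j) (range r : Set ℕ) := by
    intro i hi j hj hij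
    simp only [coe_range, Set.mem_Iio] at hi hj
    simp only [neg_inj] at hij
    rcases Nat.lt_trichotomy i j with h | h | h
    · exact absurd hij (hlt i j h hj).ne
    · exact h
    · exact absurd hij (hlt j i h hi).ne'
  have hcard : ((range r).image (fun j => -y j)).card = r := by
    rw [card_image_of_injOn hinj, card_range]
  apply eq_of_degree_sub_lt_of_eval_finset_eq ((range r).image (fun j => -y j))
  · rw [hcard, degree_lt_iff_coeff_zero]
    intro m hm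
    simp only [PP, coeff_sub, coeff_C_mul]
    rw [mon_coeff (fun s : ℕ => ((s : ℝ) + 1)) r m hm, mon_coeff (fun s : ℕ => ((s : ℝ) + 1 / 2)) r m hm,
      mon_coeff y r m hm]
    ring
  · intro x hx
    rw [mem_image] at hx
    obtain ⟨j, hj, rfl⟩ := hx
    rw [mem_range] at hj
    rw [(hy j hj).2.2, eval_mul, eval_prod, prod_eq_zero (mem_range.2 hj) (by simp), mul_zero]

theorem const_lt (r : ℕ) (hr : 1 ≤ r) :
    (4 ^ r / ((2 * r + 1).factorial : ℝ)) < 1 / (r.factorial : ℝ) ^ 2 := by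
  have h1 := Nat.four_pow_le_two_mul_self_mul_centralBinom r (by omega)
  have h2 : Nat.centralBinom r * (r.factorial * r.factorial) = (2 * r).factorial := by
    have := Nat.choose_mul_factorial_mul_factorial (show r ≤ 2 * r by omega)
    rw [show 2 * r - r = r by omega] at this
    rw [Nat.centralBinom, ← this]
    ring
  have h3 : 0 < Nat.centralBinom r := Nat.centralBinom_pos r
  have h4 : 4 ^ r * (r.factorial * r.factorial) < (2 * r + 1).factorial := by
    rw [Nat.factorial_succ, ← h2]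
    have h5 : 0 < r.factorial * r.factorial := by positivity
    calc 4 ^ r * (r.factorial * r.factorial) ≤ (2 * r * Nat.centralBinom r) * (r.factorial * r.factorial) :=
          Nat.mul_le_mul_right _ h1
      _ < (2 * r + 1) * (Nat.centralBinom r * (r.factorial * r.factorial)) := by
          have : 0 < Nat.centralBinom r * (r.factorial * r.factorial) := by positivity
          nlinarith
  have h5 : (4 : ℝ) ^ r * (r.factorial * r.factorial) < ((2 * r + 1).factorial : ℝ) := by exact_mod_cast h4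
  rw [div_lt_div_iff₀ (by positivity) (by positivity)]
  rw [one_mul, sq]
  exact h5

/-- **Log-concavity of `S_n(m, 1)`** for `n = 2 r + 1 ≥ 3`; in fact all its zeros are real and
nonpositive. -/
theorem result (r : ℕ) (hr : 1 ≤ r) :
    (∀ ℓ : ℕ, (S r).coeff ℓ * (S r).coeff (ℓ + 2) ≤ (S r).coeff (ℓ + 1) ^ 2) ∧
    ∃ (c : ℝ) (y : ℕ → ℝ), 0 < c ∧ (∀ j < r, 0 < y j) ∧
      (S r).map (algebraMap ℚ ℝ) =
        C c * (∏ s ∈ range (r + 1), (X + C (s : ℝ))) * ∏ j ∈ range r, (X + C (y j)) := by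
  have h := congrArg (Polynomial.map (algebraMap ℚ ℝ)) (closed r)
  set A : ℝ := 1 / (r.factorial : ℝ) ^ 2 with hA
  set B : ℝ := 4 ^ r / ((2 * r + 1).factorial : ℝ) with hB
  have hBpos : 0 < B := by rw [hB]; positivity
  have hlt : B < A := const_lt r hr
  obtain ⟨y, hy, hP⟩ := PP_factor A B hBpos hlt r hr
  have h1 : ((S r).map (algebraMap ℚ ℝ)) = C ((A - B) / 2) *
      ((1 * ∏ s ∈ range (r + 1), (X + C ((fun s : ℕ => (s : ℝ)) s))) * ∏ j ∈ range r, (X + C (y j))) := by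
    have h4 : (4 : ℝ[X]) ≠ 0 := by norm_num
    apply mul_left_cancel₀ h4
    have e : (C ((A - B) / 2) : ℝ[X]) * 2 = C (A - B) := by
      rw [show (2 : ℝ[X]) = C 2 from rfl, ← C_mul]; congr 1; ring
    simp only [Polynomial.map_mul, Polynomial.map_sub, Polynomial.map_prod, Polynomial.map_add,
      Polynomial.map_X, Polynomial.map_C, Polynomial.map_ofNat] at h
    rw [h]
    have h2 : (C ((algebraMap ℚ ℝ) (1 / (r.factorial : ℚ) ^ 2)) * ∏ x ∈ range r, (X + C ((algebraMap ℚ ℝ) ((x : ℚ) + 1))) -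
        C ((algebraMap ℚ ℝ) (4 ^ r / ((2 * r + 1).factorial : ℚ))) * ∏ x ∈ range r, (X + C ((algebraMap ℚ ℝ) ((x : ℚ) + 1 / 2)))) =
        PP A B r := by
      simp [PP, hA, hB]
    rw [h2, hP]
    simp only [map_natCast, one_mul]
    linear_combination (-2 * ((∏ x ∈ range (r + 1), (X + (x : ℝ[X]))) * ∏ j ∈ range r, (X + C (y j)))) * e
  refine ⟨fun ℓ => ?_, (A - B) / 2, y, by linarith, hy, ?_⟩
  · have h2 : SLC ((S r).map (algebraMap ℚ ℝ)) := by
      rw [h1]
      apply SLC.C_mul _ (by linarith)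
      apply SLC.prod _ _ _ fun i hi => (hy i hi).le
      apply SLC.prod SLC.one _ _ fun i _ => Nat.cast_nonneg i
    have h3 := h2.2 ℓ ℓ le_rfl
    simp only [coeff_map, eq_ratCast] at h3
    have h4 : ((S r).coeff ℓ * (S r).coeff (ℓ + 2) : ℚ) ≤ (S r).coeff (ℓ + 1) * (S r).coeff (ℓ + 1) := by
      exact_mod_cast h3
    rw [sq]
    exact h4
  · rw [h1, one_mul, mul_assoc]

end Pool.Agent.Results.MP_523fe6_co.LogConcave
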